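import Pool.Agent.Lib.MP_62cf67_lc.Main

/-!
# MP_62cf67_lc: free symbols give no new irreducible dividing lines
-/

namespace Pool.Agent.Results.MP_62cf67_lc.FreeSymbols

open FirstOrder FirstOrder.Language FirstOrder.Language.Structure CategoryTheory Set
open Pool.Agent.Lib.MP_62cf67_lc

/-- Let `K` be an algebraically trivial Fraïssé class in a finite relational language, with generic
limit `A`, which is free in a set `F` of relation symbols, and let `B` be the class of the reducts
of the members of `K` to the other symbols. Then `B` is an algebraically trivial Fraïssé class, its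
generic limit is the reduct of `A`, and it is coded in `K`. Moreover `K` is coded in `B`, or for the
greatest number `r ≥ 2` at which `K` splits in `F`, the class `H_r` of the `r`-uniform hypergraphs
is coded in `K`, every structure in which `B` and `H_r` are coded codes `K`, and if `K` is
indecomposable, then `K` is coded in `B` or in `H_r`.
If `K` has free amalgamation, then `K` is equivalent to the class of pure sets (the reducts to no
symbols) or to `H_r` for some `r ≥ 2`. -/
theorem result (L : FirstOrder.Language.{0, 0}) [L.IsRelational] [Finite (Σ n, L.Relations n)]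
    (K : Set (Bundled.{0} L.Structure)) (A : Type) [L.Structure A] [Countable A] [Infinite A]
    (hlim : IsFraisseLimit K A) (hd : DisjointAmalgamation K) :
    (∀ F : ∀ n, Set (L.Relations n), FreeIn K F →
      ((baseLanguage F).IsUltrahomogeneous A ∧ DisjointAmalgamation ((baseLanguage F).age A) ∧
        Codes (baseLanguage F) L A A) ∧
      (Codes L (baseLanguage F) A A ∨
        ∃ r, 2 ≤ r ∧ SplitsIn K F r ∧ (∀ s, r < s → ¬ SplitsIn K F s) ∧
          ∃ (H : Type) (_ : (edgeLanguage r).Structure H) (_ : Countable H),
            IsFraisseLimit (Hypergraphs r) H ∧
            Codes (edgeLanguage r) L H A ∧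
            (∀ (L' : FirstOrder.Language.{0, 0}) (M : Type) [L'.Structure M],
              (Codes (baseLanguage F) L' A M → Codes (edgeLanguage r) L' H M →
                Codes L L' A M) ∧
              (CodedIn (baseLanguage F) L' A M → CodedIn (edgeLanguage r) L' H M →
                CodedIn L L' A M)) ∧
            ∀ E : Prop, Indecomposable E L A →
              Codes L (baseLanguage F) A A ∨ Codes L (edgeLanguage r) A H)) ∧
    (FreeAmalgamation K →
      Codes L (baseLanguage fun n => (univ : Set (L.Relations n))) A A ∨
        ∃ r, 2 ≤ r ∧ ∃ (H : Type) (_ : (edgeLanguage r).Structure H) (_ : Countable H),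
          IsFraisseLimit (Hypergraphs r) H ∧
          Codes (edgeLanguage r) L H A ∧ Codes L (edgeLanguage r) A H) :=
  ⟨fun _ hF => ⟨⟨base_ultrahomogeneous hF hlim.ultrahomogeneous hlim.age,
    base_disjoint hF hlim.age hd, codes_base _⟩, main hlim hd hF⟩, main_free hlim⟩

end Pool.Agent.Results.MP_62cf67_lc.FreeSymbols
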